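import Pool.Agent.Helper61.P3.St2
import Pool.Agent.Helper79.LM.M_PL

/-!
# Project P3, module QSU: summation over the classes
-/

set_option autoImplicit false

open MeasureTheory Set Filter Topology
open scoped ENNReal RealInnerProductSpace

namespace Pool.Agent.Helper48.P3

open Pool.Agent.Helper61.P3 Pool.Agent.Helper20.RG Pool.Agent.Helper20.EQ
open Pool.Agent.Helper68.LM (Pl BB Bd Av HL ft fm DQ)
open Pool.Agent.Helper68.EP (elt GapP)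

/-- geometric sums which start at `v₀` -/
theorem geo_qsu (c : ℝ) (hc : 0 < c) : ∃ K : ℝ, 0 < K ∧ ∀ v₀ : ℕ,
    ∑' v : ℕ, (if v₀ ≤ v then ENNReal.ofReal ((2 : ℝ) ^ (-(c * (v : ℝ)))) else 0) ≤
      ENNReal.ofReal (K * (2 : ℝ) ^ (-(c * (v₀ : ℝ)))) := by
  have hr0 : 0 < (2 : ℝ) ^ (-c) := Real.rpow_pos_of_pos (by norm_num) _
  have hr1 : (2 : ℝ) ^ (-c) < 1 := Real.rpow_lt_one_of_one_lt_of_neg (by norm_num) (by linarith)
  refine ⟨(1 - (2 : ℝ) ^ (-c))⁻¹, inv_pos.mpr (by linarith), ?_⟩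
  intro v₀
  have hsum : ∑ i ∈ Finset.range v₀,
      (if v₀ ≤ i then ENNReal.ofReal ((2 : ℝ) ^ (-(c * (i : ℝ)))) else 0) = 0 := by
    refine Finset.sum_eq_zero ?_
    intro i hi
    rw [if_neg]
    rw [Finset.mem_range] at hi
    omega
  have h1 := Summable.sum_add_tsum_nat_add' (k := v₀)
    (f := fun v : ℕ => (if v₀ ≤ v then ENNReal.ofReal ((2 : ℝ) ^ (-(c * (v : ℝ)))) else 0))
    ENNReal.summable
  rw [hsum, zero_add] at h1
  rw [← h1]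
  have h2 : ∀ n : ℕ, (if v₀ ≤ n + v₀ then ENNReal.ofReal ((2 : ℝ) ^ (-(c * ((n + v₀ : ℕ) : ℝ)))) else 0) =
      ENNReal.ofReal ((2 : ℝ) ^ (-(c * (v₀ : ℝ)))) * (ENNReal.ofReal ((2 : ℝ) ^ (-c))) ^ n := by
    intro n
    rw [if_pos (by omega), ← ENNReal.ofReal_pow hr0.le, ← ENNReal.ofReal_mul (Real.rpow_nonneg (by norm_num) _),
      ← Real.rpow_natCast ((2 : ℝ) ^ (-c)) n, ← Real.rpow_mul (by norm_num), ← Real.rpow_add (by norm_num)]
    congr 2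
    push_cast
    ring
  rw [tsum_congr h2, ENNReal.tsum_mul_left, ENNReal.tsum_geometric, mul_comm (_ : ℝ) ((2 : ℝ) ^ (-(c * (v₀ : ℝ)))),
    ENNReal.ofReal_mul (Real.rpow_nonneg (by norm_num) _)]
  refine mul_le_mul_right ?_ _
  rw [ENNReal.ofReal_inv_of_pos (by linarith), ENNReal.ofReal_sub _ hr0.le, ENNReal.ofReal_one]

/-- superadditivity of the lower integral (no measurability) -/
theorem tsum_lint_qsu {ι : Type*} (f : ι → Pl → ℝ≥0∞) :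
    ∑' i, ∫⁻ x, f i x ≤ ∫⁻ x, ∑' i, f i x := by
  classical
  rw [ENNReal.tsum_eq_iSup_sum]
  refine iSup_le ?_
  intro s
  have h1 : ∀ s : Finset ι, ∑ i ∈ s, ∫⁻ x, f i x ≤ ∫⁻ x, ∑ i ∈ s, f i x := by
    intro s
    induction s using Finset.induction_on with
    | empty => simp
    | insert a s ha ih =>
      rw [Finset.sum_insert ha]
      calc (∫⁻ x, f a x) + ∑ i ∈ s, ∫⁻ x, f i x ≤ (∫⁻ x, f a x) + ∫⁻ x, ∑ i ∈ s, f i x := by gcongr
        _ ≤ ∫⁻ x, (f a x + ∑ i ∈ s, f i x) := le_lintegral_add _ _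
        _ = ∫⁻ x, ∑ i ∈ insert a s, f i x := by
          refine lintegral_congr ?_
          intro x
          rw [Finset.sum_insert ha]
  refine (h1 s).trans (lintegral_mono ?_)
  intro x
  exact ENNReal.sum_le_tsum s

theorem plan_qsu (g : Pl → ℝ) (hg : BB g) (a : ℕ → Pl → ℝ≥0∞) (K : ℝ≥0∞)
    (h : ∀ ξ, ∑' u, a u ξ ≤ K) :
    ∑' u, ∫⁻ ξ, a u ξ * ‖ft g ξ‖ₑ ^ 2 ≤ K * ∫⁻ x, ‖g x‖ₑ ^ 2 := by
  obtain ⟨hm, hP⟩ := Pool.Agent.Helper79.LM.hPL g hg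
  calc ∑' u, ∫⁻ ξ, a u ξ * ‖ft g ξ‖ₑ ^ 2 ≤ ∫⁻ ξ, ∑' u, a u ξ * ‖ft g ξ‖ₑ ^ 2 := tsum_lint_qsu _
    _ ≤ ∫⁻ ξ, K * ‖ft g ξ‖ₑ ^ 2 := by
        refine lintegral_mono ?_
        intro ξ
        show ∑' u, a u ξ * ‖ft g ξ‖ₑ ^ 2 ≤ K * ‖ft g ξ‖ₑ ^ 2
        rw [ENNReal.tsum_mul_right]
        exact mul_le_mul_left (h ξ) _
    _ = K * ∫⁻ ξ, ‖ft g ξ‖ₑ ^ 2 := lintegral_const_mul _ (hm.enorm.pow_const 2)
    _ = K * ∫⁻ x, ‖g x‖ₑ ^ 2 := by rw [hP]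

/-- weighted sums of the quadratic forms -/
theorem form_qsu (g : Pl → ℝ) (hg : BB g) (Q : ℕ → Prop) [DecidablePred Q] (c : ℕ → ℝ) (hc : ∀ u, 0 ≤ c u)
    (m : ℕ → ℝ → ℝ) (K : ℝ≥0∞)
    (h : ∀ θ, ∑' u, (if Q u then ENNReal.ofReal (c u * m u θ) else 0) ≤ K) :
    ∑' u, (if Q u then ENNReal.ofReal (c u) * ∫⁻ ξ, ENNReal.ofReal (m u (th ξ)) * ‖ft g ξ‖ₑ ^ 2 else 0) ≤
      K * ∫⁻ x, ‖g x‖ₑ ^ 2 := by
  refine le_trans ?_ (plan_qsu g hg (fun u ξ => if Q u then ENNReal.ofReal (c u * m u (th ξ)) else 0) K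
    (fun ξ => h (th ξ)))
  refine ENNReal.tsum_le_tsum ?_
  intro u
  by_cases hQ : Q u
  · simp only [if_pos hQ]
    refine (lintegral_const_mul_le _ _).trans (lintegral_mono ?_)
    intro ξ
    show ENNReal.ofReal (c u) * (ENNReal.ofReal (m u (th ξ)) * ‖ft g ξ‖ₑ ^ 2) ≤
      ENNReal.ofReal (c u * m u (th ξ)) * ‖ft g ξ‖ₑ ^ 2
    rw [ENNReal.ofReal_mul (hc u), mul_assoc]
  · simp only [if_neg hQ]
    exact zero_le

theorem elt_nonneg_qsu (τ : ℝ → ℝ) (θ : ℝ) (i : ℕ) : 0 ≤ elt τ θ i ∧ elt τ θ i ≤ 1 := by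
  refine ⟨ENNReal.toReal_nonneg, ?_⟩
  unfold Pool.Agent.Helper68.EP.elt
  refine ENNReal.toReal_le_of_le_ofReal (by norm_num) ?_
  refine (measure_mono (fun t ht => ht.1)).trans ?_
  rw [Real.volume_Icc]
  norm_num

/-- the sum of the bounds `m0` -/
theorem m0_qsu (hSS : StSS) : ∃ C : ℝ, 0 < C ∧ ∀ (τ : ℝ → ℝ) (A : ℝ), 0 < A → GapP A 3 τ → ∀ θ : ℝ,
    ∑' u : ℕ, (if 2 ≤ u then ENNReal.ofReal ((2 : ℝ) ^ (-(3 * (u : ℝ))) * m0 τ u θ) else 0) ≤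
      ENNReal.ofReal (C * (1 + A)) := by
  obtain ⟨C1, hC1, h1⟩ := hSS 3 (by norm_num)
  obtain ⟨K, hK, g1⟩ := geo_qsu 2 (by norm_num)
  refine ⟨K + C1, by positivity, ?_⟩
  intro τ A hA hGap θ
  have hss := (h1 (fun i => elt τ θ i) A 1 (fun i => elt_nonneg_qsu τ θ i)
    (fun n => hGap θ n) one_pos).1
  have hpt : ∀ u : ℕ, (if 2 ≤ u then ENNReal.ofReal ((2 : ℝ) ^ (-(3 * (u : ℝ))) * m0 τ u θ) else 0) ≤
      (if 0 ≤ u then ENNReal.ofReal ((2 : ℝ) ^ (-(2 * (u : ℝ)))) else 0) +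
      ∑' i : ℕ, ENNReal.ofReal (if 1 ≤ (2 : ℝ) ^ u * elt τ θ (i + 1) then (2 : ℝ) ^ (-(3 * (u : ℝ))) else 0) := by
    intro u
    by_cases hu : 2 ≤ u
    · rw [if_pos hu, if_pos (Nat.zero_le u)]
      have hx0 : 0 ≤ (2 : ℝ) ^ (-(3 * (u : ℝ))) := Real.rpow_nonneg (by norm_num) _
      unfold m0
      rw [mul_add, ENNReal.ofReal_add (by positivity) (by positivity)]
      refine add_le_add ?_ ?_
      · refine ENNReal.ofReal_le_ofReal ?_
        have h2 : (u : ℝ) + 1 ≤ (2 : ℝ) ^ (u : ℝ) := by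
          rw [Real.rpow_natCast]
          have h3 : u + 1 ≤ 2 ^ u := Nat.lt_two_pow_self
          exact_mod_cast h3
        calc (2 : ℝ) ^ (-(3 * (u : ℝ))) * ((u : ℝ) + 1) ≤ (2 : ℝ) ^ (-(3 * (u : ℝ))) * (2 : ℝ) ^ (u : ℝ) := by
              gcongr
          _ = (2 : ℝ) ^ (-(2 * (u : ℝ))) := by
              rw [← Real.rpow_add (by norm_num)]
              congr 1
              ring
      · set S' : Set ℕ := {i : ℕ | 1 ≤ (2 : ℝ) ^ u * elt τ θ (i + 1)} with hS'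
        have hS : {i : ℕ | 1 ≤ i ∧ 1 ≤ (2 : ℝ) ^ u * elt τ θ i} = (fun i : ℕ => i + 1) '' S' := by
          ext i
          constructor
          · rintro ⟨ha, hb⟩
            refine ⟨i - 1, ?_, by simp; omega⟩
            show 1 ≤ (2 : ℝ) ^ u * elt τ θ (i - 1 + 1)
            rw [Nat.sub_add_cancel ha]
            exact hb
          · rintro ⟨j, hj, rfl⟩
            exact ⟨by simp, hj⟩
        rw [hS, Set.ncard_image_of_injective _ (add_left_injective 1)]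
        by_cases hfin : S'.Finite
        · rw [Set.ncard_eq_toFinset_card S' hfin, mul_comm, ENNReal.ofReal_mul (by positivity),
            ENNReal.ofReal_natCast, ← nsmul_eq_mul, ← Finset.sum_const]
          refine le_trans ?_ (ENNReal.sum_le_tsum hfin.toFinset)
          refine Finset.sum_le_sum ?_
          intro i hi
          rw [Set.Finite.mem_toFinset] at hi
          have hi' : 1 ≤ (2 : ℝ) ^ u * elt τ θ (i + 1) := hi
          rw [if_pos hi']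
        · have h0 : S'.ncard = 0 := Set.Infinite.ncard hfin
          rw [h0]
          simp
    · rw [if_neg hu]
      exact zero_le
  refine (ENNReal.tsum_le_tsum hpt).trans ?_
  rw [ENNReal.tsum_add]
  refine (add_le_add (g1 0) hss).trans ?_
  rw [← ENNReal.ofReal_add (by positivity) (by positivity)]
  refine ENNReal.ofReal_le_ofReal ?_
  simp only [Nat.cast_zero, mul_zero, neg_zero, Real.rpow_zero, mul_one, Real.one_rpow]
  nlinarith [mul_pos hK hA]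

/-- the numbers -/
theorem num_qsu (v l : ℕ) : 0 < om3 v l ∧
    (2 : ℝ) ^ ((v : ℝ) - l) / om3 v l * ((2 : ℝ) ^ ((3 / 4 : ℝ) * l - (9 / 4 : ℝ) * v) + (2 : ℝ) ^ ((l : ℝ) - 3 * v)) ≤
      2 * ((2 : ℝ) ^ (-((1 / 8 : ℝ) * (v : ℝ))) * (2 : ℝ) ^ (-((3 / 8 : ℝ) * (l : ℝ)))) ∧
    (2 : ℝ) ^ ((v : ℝ) - l) * om3 v l ≤
      (2 : ℝ) ^ (-((1 / 8 : ℝ) * (v : ℝ))) * (2 : ℝ) ^ (-((3 / 8 : ℝ) * (l : ℝ))) := by
  have hv : (0 : ℝ) ≤ v := Nat.cast_nonneg v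
  have hl : (0 : ℝ) ≤ l := Nat.cast_nonneg l
  have h0 : 0 < om3 v l := Real.rpow_pos_of_pos (by norm_num) _
  refine ⟨h0, ?_, ?_⟩
  · unfold om3
    rw [← Real.rpow_sub (by norm_num), mul_add, ← Real.rpow_add (by norm_num), ← Real.rpow_add (by norm_num),
      ← Real.rpow_add (by norm_num), two_mul]
    refine add_le_add ?_ ?_
    · refine Real.rpow_le_rpow_of_exponent_le (by norm_num) ?_
      linarith
    · refine Real.rpow_le_rpow_of_exponent_le (by norm_num) ?_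
      linarith
  · unfold om3
    rw [← Real.rpow_add (by norm_num), ← Real.rpow_add (by norm_num)]
    refine Real.rpow_le_rpow_of_exponent_le (by norm_num) ?_
    linarith

theorem hQSU (hSS : Pool.Agent.Helper20.EQ.StSS) (hBN2 : Pool.Agent.Helper61.P3.StBN2) :
    Pool.Agent.Helper61.P3.StQSU := by
  classical
  intro φ τ A hG hA hGap
  obtain ⟨C0, hC0, hm0⟩ := m0_qsu hSS
  obtain ⟨C2, hC2, h2⟩ := hBN2 φ τ A hG hA hGap
  obtain ⟨K1, hK1, g1⟩ := geo_qsu (1 / 8) (by norm_num)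
  obtain ⟨K2, hK2, g2⟩ := geo_qsu (3 / 8) (by norm_num)
  set B : ℝ := C0 * (1 + A) with hB
  have hB0 : 0 < B := by positivity
  refine ⟨1 + B + (2 * C2 + B) * K1 * K2, by nlinarith [mul_pos (mul_pos (by positivity : 0 < 2 * C2 + B) hK1) hK2], ?_⟩
  intro g hg
  set N : ℝ≥0∞ := ∫⁻ x, ‖g x‖ₑ ^ 2 with hN
  have hfirst : ∑' u : ℕ, (if 2 ≤ u then ENNReal.ofReal ((2 : ℝ) ^ (-(3 * (u : ℝ)))) * BQ0 τ u g else 0) ≤
      ENNReal.ofReal B * N :=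
    form_qsu g hg (fun u => 2 ≤ u) (fun u => (2 : ℝ) ^ (-(3 * (u : ℝ)))) (fun u => Real.rpow_nonneg (by norm_num) _)
      (m0 τ) (ENNReal.ofReal B) (hm0 τ A hA hGap)
  refine ⟨hfirst.trans ?_, ?_⟩
  · refine mul_le_mul_left ?_ _
    refine ENNReal.ofReal_le_ofReal ?_
    nlinarith [mul_pos (mul_pos (by positivity : 0 < 2 * C2 + B) hK1) hK2]
  intro v₀ hv₀
  set S : ℕ → ℕ → ℝ≥0∞ := fun v l => (if v₀ ≤ v then
    ENNReal.ofReal ((2 * C2 + B) * ((2 : ℝ) ^ (-((1 / 8 : ℝ) * (v : ℝ))) * (2 : ℝ) ^ (-((3 / 8 : ℝ) * (l : ℝ))))) * N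
    else 0) with hSdef
  set F : ℕ → ℕ → ℕ → ℝ≥0∞ := fun u v l =>
    ENNReal.ofReal ((2 : ℝ) ^ ((v : ℝ) - l) / om3 v l) * BQ τ u v l g +
    ENNReal.ofReal ((2 : ℝ) ^ ((v : ℝ) - l) * om3 v l) * BQ0 τ u g with hF
  set T : ℕ → ℕ → ℕ → ℝ≥0∞ := fun u v l => (if 2 ≤ u ∧ v₀ ≤ v ∧ v ≤ u then
    ENNReal.ofReal ((2 : ℝ) ^ (-(3 * (u : ℝ)))) * F u v l else 0) with hT
  have hstep1 : ∀ u : ℕ, (if 2 ≤ u then ENNReal.ofReal ((2 : ℝ) ^ (-(3 * (u : ℝ)))) * EX τ u v₀ g else 0) ≤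
      ∑' v : ℕ, ∑' l : ℕ, T u v l := by
    intro u
    by_cases hu : 2 ≤ u
    · rw [if_pos hu]
      unfold EX
      rw [Finset.mul_sum]
      refine le_trans ?_ (ENNReal.sum_le_tsum (Finset.Icc v₀ u))
      refine Finset.sum_le_sum ?_
      intro v hv
      rw [Finset.mem_Icc] at hv
      rw [← ENNReal.tsum_mul_left]
      refine ENNReal.tsum_le_tsum ?_
      intro l
      rw [hT]
      simp only [if_pos (show 2 ≤ u ∧ v₀ ≤ v ∧ v ≤ u from ⟨hu, hv.1, hv.2⟩)]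
      exact le_refl _
    · rw [if_neg hu]
      exact zero_le
  have hstep2 : ∀ v l : ℕ, ∑' u : ℕ, T u v l ≤ S v l := by
    intro v l
    rw [hT, hSdef]
    by_cases hv : v₀ ≤ v
    · simp only [if_pos hv]
      have hv1 : 1 ≤ v := hv₀.trans hv
      obtain ⟨ho, hn1, hn2⟩ := num_qsu v l
      have hp1 : 0 ≤ (2 : ℝ) ^ ((v : ℝ) - l) / om3 v l := div_nonneg (Real.rpow_nonneg (by norm_num) _) ho.le
      have hp2 : 0 ≤ (2 : ℝ) ^ ((v : ℝ) - l) * om3 v l := mul_nonneg (Real.rpow_nonneg (by norm_num) _) ho.le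
      have hq : ∑' u : ℕ, (if 1 ≤ u ∧ v ≤ u then
          ENNReal.ofReal ((2 : ℝ) ^ (-(3 * (u : ℝ)))) * BQ τ u v l g else 0) ≤
          ENNReal.ofReal (C2 * ((2 : ℝ) ^ ((3 / 4 : ℝ) * l - (9 / 4 : ℝ) * v) + (2 : ℝ) ^ ((l : ℝ) - 3 * v))) * N :=
        form_qsu g hg (fun u => 1 ≤ u ∧ v ≤ u) (fun u => (2 : ℝ) ^ (-(3 * (u : ℝ))))
          (fun u => Real.rpow_nonneg (by norm_num) _) (fun u => mq τ u v l) _ (fun θ => h2 v l θ hv1)
      calc ∑' u : ℕ, (if 2 ≤ u ∧ v₀ ≤ v ∧ v ≤ u then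
            ENNReal.ofReal ((2 : ℝ) ^ (-(3 * (u : ℝ)))) * F u v l else 0)
          ≤ ∑' u : ℕ, (ENNReal.ofReal ((2 : ℝ) ^ ((v : ℝ) - l) / om3 v l) *
              (if 1 ≤ u ∧ v ≤ u then ENNReal.ofReal ((2 : ℝ) ^ (-(3 * (u : ℝ)))) * BQ τ u v l g else 0) +
            ENNReal.ofReal ((2 : ℝ) ^ ((v : ℝ) - l) * om3 v l) *
              (if 2 ≤ u then ENNReal.ofReal ((2 : ℝ) ^ (-(3 * (u : ℝ)))) * BQ0 τ u g else 0)) := by
            refine ENNReal.tsum_le_tsum ?_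
            intro u
            by_cases hu : 2 ≤ u ∧ v₀ ≤ v ∧ v ≤ u
            · rw [if_pos hu, if_pos ⟨by omega, hu.2.2⟩, if_pos hu.1, hF]
              apply le_of_eq
              ring
            · rw [if_neg hu]
              exact zero_le
        _ = ENNReal.ofReal ((2 : ℝ) ^ ((v : ℝ) - l) / om3 v l) *
              ∑' u : ℕ, (if 1 ≤ u ∧ v ≤ u then ENNReal.ofReal ((2 : ℝ) ^ (-(3 * (u : ℝ)))) * BQ τ u v l g else 0) +
            ENNReal.ofReal ((2 : ℝ) ^ ((v : ℝ) - l) * om3 v l) *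
              ∑' u : ℕ, (if 2 ≤ u then ENNReal.ofReal ((2 : ℝ) ^ (-(3 * (u : ℝ)))) * BQ0 τ u g else 0) := by
            rw [ENNReal.tsum_add, ENNReal.tsum_mul_left, ENNReal.tsum_mul_left]
        _ ≤ ENNReal.ofReal ((2 : ℝ) ^ ((v : ℝ) - l) / om3 v l) *
              (ENNReal.ofReal (C2 * ((2 : ℝ) ^ ((3 / 4 : ℝ) * l - (9 / 4 : ℝ) * v) + (2 : ℝ) ^ ((l : ℝ) - 3 * v))) * N) +
            ENNReal.ofReal ((2 : ℝ) ^ ((v : ℝ) - l) * om3 v l) * (ENNReal.ofReal B * N) := by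
            gcongr
        _ = ENNReal.ofReal (((2 : ℝ) ^ ((v : ℝ) - l) / om3 v l) *
              (C2 * ((2 : ℝ) ^ ((3 / 4 : ℝ) * l - (9 / 4 : ℝ) * v) + (2 : ℝ) ^ ((l : ℝ) - 3 * v))) +
              ((2 : ℝ) ^ ((v : ℝ) - l) * om3 v l) * B) * N := by
            rw [ENNReal.ofReal_add (by positivity) (by positivity), ENNReal.ofReal_mul hp1, ENNReal.ofReal_mul hp2]
            ring
        _ ≤ ENNReal.ofReal ((2 * C2 + B) *
              ((2 : ℝ) ^ (-((1 / 8 : ℝ) * (v : ℝ))) * (2 : ℝ) ^ (-((3 / 8 : ℝ) * (l : ℝ))))) * N := by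
            refine mul_le_mul_left ?_ _
            refine ENNReal.ofReal_le_ofReal ?_
            have e1 := mul_le_mul_of_nonneg_left hn1 hC2.le
            have e2 := mul_le_mul_of_nonneg_left hn2 hB0.le
            nlinarith [e1, e2]
    · simp only [if_neg hv]
      refine le_of_eq ?_
      rw [ENNReal.tsum_eq_zero]
      intro u
      rw [if_neg]
      tauto
  calc ∑' u : ℕ, (if 2 ≤ u then ENNReal.ofReal ((2 : ℝ) ^ (-(3 * (u : ℝ)))) * EX τ u v₀ g else 0)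
      ≤ ∑' u : ℕ, ∑' v : ℕ, ∑' l : ℕ, T u v l := ENNReal.tsum_le_tsum hstep1
    _ = ∑' v : ℕ, ∑' l : ℕ, ∑' u : ℕ, T u v l := by
        rw [ENNReal.tsum_comm]
        refine tsum_congr ?_
        intro v
        rw [ENNReal.tsum_comm]
    _ ≤ ∑' v : ℕ, ∑' l : ℕ, S v l := ENNReal.tsum_le_tsum fun v => ENNReal.tsum_le_tsum fun l => hstep2 v l
    _ = ∑' v : ℕ, ∑' l : ℕ, (ENNReal.ofReal (2 * C2 + B) * N) *
          ((if v₀ ≤ v then ENNReal.ofReal ((2 : ℝ) ^ (-((1 / 8 : ℝ) * (v : ℝ)))) else 0) *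
            (if 0 ≤ l then ENNReal.ofReal ((2 : ℝ) ^ (-((3 / 8 : ℝ) * (l : ℝ)))) else 0)) := by
        refine tsum_congr fun v => tsum_congr fun l => ?_
        rw [hSdef]
        by_cases hv : v₀ ≤ v
        · simp only [if_pos hv, if_pos (Nat.zero_le l)]
          rw [ENNReal.ofReal_mul (by positivity), ENNReal.ofReal_mul (Real.rpow_nonneg (by norm_num) _)]
          ring
        · simp only [if_neg hv, zero_mul, mul_zero]
    _ = (ENNReal.ofReal (2 * C2 + B) * N) *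
          ((∑' v : ℕ, (if v₀ ≤ v then ENNReal.ofReal ((2 : ℝ) ^ (-((1 / 8 : ℝ) * (v : ℝ)))) else 0)) *
            ∑' l : ℕ, (if 0 ≤ l then ENNReal.ofReal ((2 : ℝ) ^ (-((3 / 8 : ℝ) * (l : ℝ)))) else 0)) := by
        rw [← ENNReal.tsum_mul_right, ← ENNReal.tsum_mul_left]
        refine tsum_congr fun v => ?_
        rw [← ENNReal.tsum_mul_left, ← ENNReal.tsum_mul_left]
    _ ≤ (ENNReal.ofReal (2 * C2 + B) * N) *
          (ENNReal.ofReal (K1 * (2 : ℝ) ^ (-((1 / 8 : ℝ) * (v₀ : ℝ)))) *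
            ENNReal.ofReal (K2 * (2 : ℝ) ^ (-((3 / 8 : ℝ) * ((0 : ℕ) : ℝ))))) := by
        gcongr
        · exact g1 v₀
        · exact g2 0
    _ = ENNReal.ofReal ((2 * C2 + B) * K1 * K2 * (2 : ℝ) ^ (-((v₀ : ℝ) / 8))) * N := by
        have e0 : (2 : ℝ) ^ (-((3 / 8 : ℝ) * ((0 : ℕ) : ℝ))) = 1 := by norm_num
        have e1 : -((1 / 8 : ℝ) * (v₀ : ℝ)) = -((v₀ : ℝ) / 8) := by ring
        rw [e0, e1, mul_one]
        have e2 : ENNReal.ofReal ((2 * C2 + B) * K1 * K2 * (2 : ℝ) ^ (-((v₀ : ℝ) / 8))) =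
            ENNReal.ofReal (2 * C2 + B) * (ENNReal.ofReal (K1 * (2 : ℝ) ^ (-((v₀ : ℝ) / 8))) * ENNReal.ofReal K2) := by
          rw [← ENNReal.ofReal_mul (by positivity), ← ENNReal.ofReal_mul (by positivity)]
          congr 1
          ring
        rw [e2]
        ring
    _ ≤ ENNReal.ofReal ((1 + B + (2 * C2 + B) * K1 * K2) * (2 : ℝ) ^ (-((v₀ : ℝ) / 8))) * N := by
        refine mul_le_mul_left ?_ _
        refine ENNReal.ofReal_le_ofReal ?_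
        refine mul_le_mul_of_nonneg_right ?_ (Real.rpow_nonneg (by norm_num) _)
        linarith

end Pool.Agent.Helper48.P3
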